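import Pool.Agent.Work.MP_90c2fd_co.Main

set_option autoImplicit false

namespace Pool.Agent.Results.MP_90c2fd_co.Main

open Pool.Agent.Work.MP_90c2fd_co

/-- For all `c ≥ 2`, `n ≥ 2` and rational `α > n` there is `k₀` such that for all `k ≥ k₀` with
`α k = m` an integer, every `c`-colouring of the edges of `KG(m,k)` has a monochromatic `K_n`. -/
theorem result :
    ∀ c n : ℕ, 2 ≤ c → 2 ≤ n → ∀ α : ℚ, (n : ℚ) < α →
      ∃ k₀ : ℕ, ∀ k : ℕ, k₀ ≤ k → ∀ m : ℕ, (m : ℚ) = α * (k : ℚ) →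
        ∀ χ : (kneserGraph m k).edgeSet → Fin c,
          ∃ S : Finset {A : Finset (Fin m) // A.card = k}, (kneserGraph m k).IsNClique n S ∧
            ∃ i : Fin c, ∀ A ∈ S, ∀ B ∈ S, ∀ h : (kneserGraph m k).Adj A B,
              χ ⟨s(A, B), h⟩ = i := by
  intro c n hc hn α hα
  obtain ⟨r, rfl⟩ := Nat.exists_eq_add_of_le' hn
  obtain ⟨k₀, hk₀⟩ := kneser_ramsey c r (by omega) (α : ℝ) (by exact_mod_cast hα)
  refine ⟨k₀, fun k hk m hm => hk₀ k hk m (le_of_eq ?_)⟩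
  exact_mod_cast hm.symm

end Pool.Agent.Results.MP_90c2fd_co.Main
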